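import Mathlib

set_option autoImplicit false

namespace Pool.Agent.H.MP_e057e5_lc

open Finset

variable {V W : Type} [DecidableEq V] [DecidableEq W]

/-- Henneberg constructions inside an edge set. -/
inductive HR : Finset V → Set (Sym2 V) → Prop
  | base {u v E} : u ≠ v → s(u, v) ∈ E → HR {u, v} E
  | zero {U E w a b} : HR U E → w ∉ U → a ∈ U → b ∈ U → a ≠ b → s(w, a) ∈ E → s(w, b) ∈ E →
      HR (insert w U) E
  | one {U E w a b c} : HR U (insert s(a, b) E) → w ∉ U → a ∈ U → b ∈ U → c ∈ U → a ≠ b → a ≠ c →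
      b ≠ c → s(w, a) ∈ E → s(w, b) ∈ E → s(w, c) ∈ E → HR (insert w U) E

theorem HR.map {U : Finset V} {E : Set (Sym2 V)} (h : HR U E) (ψ : V → W) :
    ∀ E', Set.InjOn ψ U → (∀ e ∈ E, (∀ v ∈ e, v ∈ U) → e.map ψ ∈ E') → HR (U.image ψ) E' := by
  induction h with
  | base h1 h2 =>
    intro E' h3 h4
    simpa using HR.base (fun h => h1 (h3 (by simp) (by simp) h)) (h4 _ h2 (by simp))
  | @zero U E w a b _ h1 h2 h3 h4 h5 h6 ih =>
    intro E' k1 k2
    have k3 := k1.mono (coe_subset.2 (subset_insert w U))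
    rw [image_insert]
    refine .zero (ih E' k3 fun e he h => k2 e he fun v hv => mem_insert_of_mem (h v hv))
      (fun h => ?_) (mem_image_of_mem ψ h2) (mem_image_of_mem ψ h3) (k3.ne h2 h3 h4)
      (k2 _ h5 (by simp [h2])) (k2 _ h6 (by simp [h3]))
    obtain ⟨x, k4, k5⟩ := mem_image.1 h
    exact h1 (k1 (by simp [k4]) (by simp) k5 ▸ k4)
  | @one U E w a b c _ h1 h2 h3 h4 h5 h6 h7 h8 h9 h10 ih =>
    intro E' k1 k2
    have k3 := k1.mono (coe_subset.2 (subset_insert w U))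
    rw [image_insert]
    refine .one (ih _ k3 fun e he h => ?_) (fun h => ?_) (mem_image_of_mem ψ h2)
      (mem_image_of_mem ψ h3) (mem_image_of_mem ψ h4) (k3.ne h2 h3 h5) (k3.ne h2 h4 h6)
      (k3.ne h3 h4 h7) (k2 _ h8 (by simp [h2])) (k2 _ h9 (by simp [h3])) (k2 _ h10 (by simp [h4]))
    · exact he.imp (fun h => by simp [h]) fun he => k2 e he fun v hv => mem_insert_of_mem (h v hv)
    · obtain ⟨x, k4, k5⟩ := mem_image.1 h
      exact h1 (k1 (by simp [k4]) (by simp) k5 ▸ k4)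

theorem HR.mono {U : Finset V} {E E' : Set (Sym2 V)} (h : HR U E) (h1 : E ⊆ E') : HR U E' := by
  simpa using h.map id E' (Set.injOn_id _) fun e he _ => by simpa using h1 he

theorem HR.zeros {U : Finset V} {E : Set (Sym2 V)} (h : HR U E) (ρ : V → ℕ) (Z : Finset V)
    (hZ : ∀ z ∈ Z, z ∉ U → ∃ a b, a ≠ b ∧ s(z, a) ∈ E ∧ s(z, b) ∈ E ∧
      (a ∈ U ∨ a ∈ Z ∧ ρ a < ρ z) ∧ (b ∈ U ∨ b ∈ Z ∧ ρ b < ρ z)) : HR (U ∪ Z) E := by
  induction Z using Finset.induction_on_max_value ρ with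
  | empty => simpa using h
  | insert z Z h1 h2 ih =>
    have h3 : ∀ {a y}, y ∈ insert z Z → (a ∈ U ∨ a ∈ insert z Z ∧ ρ a < ρ y) →
        a ∈ U ∨ a ∈ Z ∧ ρ a < ρ y := fun hy h => h.imp_right fun h =>
      ⟨(mem_insert.1 h.1).resolve_left fun h4 => by
        rcases mem_insert.1 hy with h5 | h5
        · exact (h4 ▸ h5 ▸ h.2).false
        · exact (h2 _ h5).not_gt (h4 ▸ h.2), h.2⟩
    have h4 := ih fun y hy h4 => by
      obtain ⟨a, b, k1, k2, k3, k4, k5⟩ := hZ y (mem_insert_of_mem hy) h4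
      exact ⟨a, b, k1, k2, k3, h3 (mem_insert_of_mem hy) k4, h3 (mem_insert_of_mem hy) k5⟩
    rw [union_insert]
    by_cases h5 : z ∈ U
    · rwa [insert_eq_of_mem (mem_union_left _ h5)]
    obtain ⟨a, b, k1, k2, k3, k4, k5⟩ := hZ z (mem_insert_self _ _) h5
    exact .zero h4 (by simp [h1, h5]) (mem_union.2 ((h3 (mem_insert_self _ _) k4).imp_right And.left))
      (mem_union.2 ((h3 (mem_insert_self _ _) k5).imp_right And.left)) k1 k2 k3

theorem HR.ones {ι : Type} [DecidableEq ι] (I : Finset ι) (w a b c : ι → V) :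
    ∀ {U : Finset V} {E : Set (Sym2 V)}, HR U (E ∪ (fun i => s(a i, b i)) '' I) → Set.InjOn w I →
      (∀ i ∈ I, w i ∉ U ∧ a i ∈ U ∧ b i ∈ U ∧ c i ∈ U ∧ a i ≠ b i ∧ a i ≠ c i ∧ b i ≠ c i ∧
        s(w i, a i) ∈ E ∧ s(w i, b i) ∈ E ∧ s(w i, c i) ∈ E) → HR (U ∪ I.image w) E := by
  induction I using Finset.induction_on with
  | empty => exact fun h _ _ => by simpa using h
  | insert i I hi ih =>
    intro U E h h1 h2
    obtain ⟨k1, k2, k3, k4, k5, k6, k7, k8, k9, k10⟩ := h2 i (mem_insert_self _ _)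
    rw [image_insert, union_insert, ← insert_union]
    refine ih (.one (by rwa [coe_insert, Set.image_insert_eq, Set.union_insert] at h) k1 k2 k3 k4
      k5 k6 k7 (Or.inl k8) (Or.inl k9) (Or.inl k10)) (h1.mono (by simp)) fun j hj => ?_
    obtain ⟨l1, l2, l3, l4, l5⟩ := h2 j (mem_insert_of_mem hj)
    exact ⟨fun h => (mem_insert.1 h).elim (fun h => hi (h1 (by simp [hj]) (by simp) h ▸ hj)) l1,
      mem_insert_of_mem l2, mem_insert_of_mem l3, mem_insert_of_mem l4, l5⟩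

theorem HR.ind (Ind : Finset (Sym2 V) → Prop) (h0 : ∀ u v, u ≠ v → Ind {s(u, v)})
    (h1 : ∀ T w a b, Ind T → (∀ e ∈ T, w ∉ e) → w ≠ a → w ≠ b → a ≠ b →
      Ind (insert s(w, b) (insert s(w, a) T)))
    (h2 : ∀ T w a b c, Ind T → (∀ e ∈ T, w ∉ e) → w ≠ a → w ≠ b → w ≠ c → a ≠ b → a ≠ c → b ≠ c →
      s(a, b) ∈ T → Ind (insert s(w, c) (insert s(w, b) (insert s(w, a) (T.erase s(a, b))))))
    {U : Finset V} {E : Set (Sym2 V)} (h : HR U E) : ∃ T : Finset (Sym2 V), ↑T ⊆ E ∧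
      (∀ e ∈ T, ∀ v ∈ e, v ∈ U) ∧ T.card + 3 = 2 * U.card ∧ Ind T := by
  have key : ∀ {U : Finset V} {E : Set (Sym2 V)} {w a b} (T : Finset (Sym2 V)), ↑T ⊆ E →
      (∀ e ∈ T, ∀ v ∈ e, v ∈ U) → w ∉ U → a ∈ U → b ∈ U → a ≠ b → s(w, a) ∈ E → s(w, b) ∈ E →
      ↑(insert s(w, b) (insert s(w, a) T)) ⊆ E ∧ (∀ e ∈ insert s(w, b) (insert s(w, a) T), ∀ v ∈ e,
        v ∈ insert w U) ∧ (insert s(w, b) (insert s(w, a) T)).card = T.card + 2 := by
    intro U E w a b T k1 k2 k3 k4 k5 k6 k7 k8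
    have k9 : ∀ x, s(w, x) ∉ T := fun x h => k3 (k2 _ h w (by simp))
    refine ⟨by simp [Set.insert_subset_iff, *], ?_, ?_⟩
    · simpa [k4, k5] using fun e he v hv => Or.inr (k2 e he v hv)
    · rw [card_insert_of_notMem (by simp [k9, k6.symm]; rintro rfl; exact absurd k4 k3),
        card_insert_of_notMem (k9 _)]
  induction h with
  | base k1 k2 => exact ⟨{_}, by simpa using k2, by simp, by simp [card_pair k1], h0 _ _ k1⟩
  | zero _ k1 k2 k3 k4 k5 k6 ih =>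
    obtain ⟨T, l1, l2, l3, l4⟩ := ih
    obtain ⟨l5, l6, l7⟩ := key T l1 l2 k1 k2 k3 k4 k5 k6
    exact ⟨_, l5, l6, by rw [l7, card_insert_of_notMem k1]; omega, h1 _ _ _ _ l4
      (fun e he h => k1 (l2 e he _ h)) (ne_of_mem_of_not_mem k2 k1).symm
      (ne_of_mem_of_not_mem k3 k1).symm k4⟩
  | @one U E w a b c _ k1 k2 k3 k4 k5 k6 k7 k8 k9 k10 ih =>
    obtain ⟨T, l1, l2, l3, l4⟩ := ih
    have n1 := (ne_of_mem_of_not_mem k2 k1).symm
    have n2 := (ne_of_mem_of_not_mem k3 k1).symm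
    have n3 := (ne_of_mem_of_not_mem k4 k1).symm
    by_cases h : s(a, b) ∈ T
    · obtain ⟨l5, l6, l7⟩ := key (T.erase s(a, b)) (fun e he => (l1 (mem_of_mem_erase
        he)).resolve_left (ne_of_mem_erase he)) (fun e he => l2 e (mem_of_mem_erase he))
        k1 k2 k3 k5 k8 k9
      refine ⟨_, by rw [coe_insert]; exact Set.insert_subset k10 l5, forall_mem_insert _ _ _ |>.2
        ⟨by simp [k4], l6⟩, ?_, h2 _ _ _ _ _ l4 (fun e he h => k1 (l2 e he _ h)) n1 n2 n3 k5 k6 k7 h⟩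
      have := card_erase_add_one h
      rw [card_insert_of_notMem (by
        simp [k6.symm, k7.symm, n1, n2]
        exact fun h => k1 (l2 _ h w (by simp))), l7, card_insert_of_notMem k1]
      omega
    · obtain ⟨l5, l6, l7⟩ := key T (fun e he => (l1 he).resolve_left (ne_of_mem_of_not_mem he h))
        l2 k1 k2 k3 k5 k8 k9
      exact ⟨_, l5, l6, by rw [l7, card_insert_of_notMem k1]; omega, h1 _ _ _ _ l4
        (fun e he h => k1 (l2 e he _ h)) n1 n2 k5⟩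

open scoped Classical

def Sp (T : Finset (Sym2 V)) : Prop := ∀ Y : Finset V, #{e ∈ T | ∀ v ∈ e, v ∈ Y} ≤ 2 * Y.card - 3

theorem sp_aux (T : Finset (Sym2 V)) (w x : V) (Y : Finset V) :
    #{e ∈ insert s(w, x) T | ∀ v ∈ e, v ∈ Y} ≤
      #{e ∈ T | ∀ v ∈ e, v ∈ Y} + if w ∈ Y ∧ x ∈ Y then 1 else 0 := by
  rw [filter_insert]
  split_ifs with h1 h2 h2
  · exact card_insert_le _ _
  · simp [h2] at h1
  all_goals simp

theorem sp_erase {T : Finset (Sym2 V)} {w : V} (h : ∀ e ∈ T, w ∉ e) (Y : Finset V) :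
    {e ∈ T | ∀ v ∈ e, v ∈ Y} = {e ∈ T | ∀ v ∈ e, v ∈ Y.erase w} := filter_congr fun e he =>
  forall₂_congr fun v hv => by simp [ne_of_mem_of_not_mem hv (h e he)]

theorem HR.sp {U : Finset V} {E : Set (Sym2 V)} (h : HR U E) : ∃ T : Finset (Sym2 V), ↑T ⊆ E ∧
    (∀ e ∈ T, ∀ v ∈ e, v ∈ U) ∧ T.card + 3 = 2 * U.card ∧ Sp T := by
  have c1 : ∀ {Y : Finset V} {w a}, w ≠ a → a ∈ Y → 1 ≤ (Y.erase w).card := fun h h' =>
    card_pos.2 ⟨_, mem_erase.2 ⟨h.symm, h'⟩⟩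
  have c2 : ∀ {Y : Finset V} {w a b}, w ≠ a → w ≠ b → a ≠ b → a ∈ Y → b ∈ Y →
      2 ≤ (Y.erase w).card := fun h1 h2 h3 h4 h5 =>
    one_lt_card.2 ⟨_, mem_erase.2 ⟨h1.symm, h4⟩, _, mem_erase.2 ⟨h2.symm, h5⟩, h3⟩
  refine h.ind Sp (fun u v h Y => ?_) (fun T w a b k1 k2 k3 k4 k5 Y => ?_)
    fun T w a b c k1 k2 k3 k4 k5 k6 k7 k8 k9 Y => ?_
  · have := sp_aux ∅ u v Y
    split_ifs at this with h1
    · have := one_lt_card.2 ⟨_, h1.1, _, h1.2, h⟩
      simp at *; omega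
    · exact this.trans (Nat.zero_le _)
  · have l1 := sp_aux (insert s(w, a) T) w b Y
    have l2 := sp_aux T w a Y
    by_cases h : w ∈ Y
    · have l3 := k1 (Y.erase w)
      have l4 := card_erase_add_one h
      have l5 := @c1 Y _ _ k3
      have l6 := @c1 Y _ _ k4
      have l7 := @c2 Y _ _ _ k3 k4 k5
      rw [← sp_erase k2] at l3
      by_cases ha : a ∈ Y <;> by_cases hb : b ∈ Y <;> simp only [h, ha, hb, and_true, and_false,
        if_true, if_false, forall_const] at l1 l2 l5 l6 l7 <;> omega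
    · have := k1 Y
      simp only [h, false_and, if_false] at l1 l2
      omega
  · have l0 := sp_aux (insert s(w, b) (insert s(w, a) (T.erase s(a, b)))) w c Y
    have l1 := sp_aux (insert s(w, a) (T.erase s(a, b))) w b Y
    have l2 := sp_aux (T.erase s(a, b)) w a Y
    have l8 : #{e ∈ T.erase s(a, b) | ∀ v ∈ e, v ∈ Y} + (if a ∈ Y ∧ b ∈ Y then 1 else 0) ≤
        #{e ∈ T | ∀ v ∈ e, v ∈ Y} := by
      rw [filter_erase]
      split_ifs with h
      · exact (card_erase_add_one (by simp [k9, h])).le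
      · exact card_erase_le
    by_cases h : w ∈ Y
    · have l3 := k1 (Y.erase w)
      have l4 := card_erase_add_one h
      have l5 := @c1 Y _ _ k3
      have l6 := @c1 Y _ _ k4
      have l7 := @c1 Y _ _ k5
      have m5 := @c2 Y _ _ _ k3 k4 k6
      have m6 := @c2 Y _ _ _ k3 k5 k7
      have m7 := @c2 Y _ _ _ k4 k5 k8
      rw [← sp_erase k2] at l3
      by_cases ha : a ∈ Y <;> by_cases hb : b ∈ Y <;> by_cases hc : c ∈ Y <;>
        simp only [h, ha, hb, hc, and_true, and_false, if_true, if_false, forall_const]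
          at l0 l1 l2 l5 l6 l7 l8 m5 m6 m7 <;> omega
    · have := k1 Y
      simp only [h, false_and, if_false] at l0 l1 l2
      omega

end Pool.Agent.H.MP_e057e5_lc
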