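import Pool.Agent.H.MP_e057e5_lc.A
import Pool.Agent.Lib.lead.CXBase

set_option autoImplicit false

namespace Pool.Agent.H.MP_e057e5_lc

open Finset

abbrev C := ℕ × ℕ × ℕ
abbrev V := (C × C) × ℕ
abbrev co (c : C) : V := ((c, c), 0)

def bd (M : ℕ) (e : C × C) : List V := co e.1 :: co e.2 :: (List.range M).map fun t => (e, t + 1)

theorem mem_bd {M e y} : y ∈ bd M e ↔ y = co e.1 ∨ y = co e.2 ∨ ∃ t < M, y = (e, t + 1) := by
  simp [bd, eq_comm]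

theorem gadget {M : ℕ} {H : List (C × C)} (hH : ∀ e ∈ H, e.1 ≠ e.2) {U : Finset C}
    (hU : ∀ c, c ∈ U ↔ ∃ e ∈ H, c = e.1 ∨ c = e.2) {F : Finset (Sym2 V)} (hF : 2 * F.card + 2 ≤ M)
    {E : Set (Sym2 V)} (hE : ∀ e ∈ H, ∀ y ∈ bd M e, ∀ z ∈ bd M e, y ≠ z → s(y, z) ∉ F → s(y, z) ∈ E)
    (h : HR U {e | (∃ x ∈ H, e = s(x.1, x.2)) ∨ e.map co ∈ E}) :
    HR (H.flatMap (bd M)).toFinset E := by
  have h1 : ∀ e : C × C, ∃ p < M, ∃ q < M, p ≠ q ∧ ∀ y, s((e, p + 1), y) ∉ F ∧ s((e, q + 1), y) ∉ F := by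
    intro e
    have k1 : ((F.biUnion Sym2.toFinset).image (·.2 - 1)).card ≤ 2 * F.card :=
      card_image_le.trans ((card_biUnion_le_card_mul _ _ 2 fun x _ => by
        induction x using Sym2.ind
        simpa [Sym2.toFinset_mk_eq] using card_le_two).trans_eq (mul_comm _ _))
    obtain ⟨p, k2, q, k3, k4⟩ := one_lt_card.1 (lt_of_lt_of_le (by rw [card_range]; omega)
      (le_card_sdiff ((F.biUnion Sym2.toFinset).image (·.2 - 1)) (range M)))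
    simp only [mem_sdiff, mem_range, mem_image, mem_biUnion, Sym2.mem_toFinset] at k2 k3
    exact ⟨p, k2.1, q, k3.1, k4, fun y => ⟨fun h => k2.2 ⟨_, ⟨_, h, Sym2.mem_mk_left _ _⟩, rfl⟩,
      fun h => k3.2 ⟨_, ⟨_, h, Sym2.mem_mk_left _ _⟩, rfl⟩⟩⟩
  choose p h1 q h2 h3 h4 using h1
  have h5 : ∀ e ∈ H, ∀ y ∈ bd M e, (y ≠ (e, p e + 1) → s(y, (e, p e + 1)) ∈ E) ∧
      (y ≠ (e, q e + 1) → s(y, (e, q e + 1)) ∈ E) := fun e he y hy =>
    ⟨fun h => hE e he y hy _ (mem_bd.2 (.inr (.inr ⟨_, h1 e, rfl⟩))) h (Sym2.eq_swap ▸ (h4 e y).1),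
      fun h => hE e he y hy _ (mem_bd.2 (.inr (.inr ⟨_, h2 e, rfl⟩))) h (Sym2.eq_swap ▸ (h4 e y).2)⟩
  have h6 : ∀ e ∈ H, co e.1 ∈ U.image co ∧ co e.2 ∈ U.image co := fun e he =>
    ⟨mem_image_of_mem _ ((hU _).2 ⟨e, he, .inl rfl⟩), mem_image_of_mem _ ((hU _).2 ⟨e, he, .inr rfl⟩)⟩
  have h7 := ((h.map co (E ∪ (fun e => s(co e.1, co e.2)) '' H.toFinset) (fun _ _ _ _ h => by
    simpa using h) fun e he _ => he.symm.imp_right fun ⟨x, k1, k2⟩ =>
      ⟨x, by simpa using k1, k2 ▸ rfl⟩).zeros 0 (H.toFinset.image fun e => (e, p e + 1))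
    fun z hz _ => by
      obtain ⟨e, he, rfl⟩ := mem_image.1 hz
      rw [List.mem_toFinset] at he
      exact ⟨co e.1, co e.2, by simpa using hH e he, .inl (Sym2.eq_swap ▸
        (h5 e he _ (by simp [bd])).1 (by simp)), .inl (Sym2.eq_swap ▸
        (h5 e he _ (by simp [bd])).1 (by simp)), .inl (h6 e he).1, .inl (h6 e he).2⟩)
  have h8 := (HR.ones H.toFinset (fun e => (e, q e + 1)) _ _ (fun e => (e, p e + 1)) h7
    (fun _ _ _ _ h => congrArg Prod.fst h) fun e he => ⟨by simpa [-Prod.forall, -Prod.exists] using fun _ => h3 e, mem_union_left _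
      (h6 e (by simpa using he)).1, mem_union_left _ (h6 e (by simpa using he)).2,
      mem_union_right _ (mem_image_of_mem _ he), by simpa using hH e (by simpa using he), by simp,
      by simp, Sym2.eq_swap ▸ (h5 e (by simpa using he) _ (by simp [bd])).2 (by simp),
      Sym2.eq_swap ▸ (h5 e (by simpa using he) _ (by simp [bd])).2 (by simp),
      (h5 e (by simpa using he) _ (mem_bd.2 (.inr (.inr ⟨_, h2 e, rfl⟩)))).1
        (by simp [(h3 e).symm])⟩).zeros 0 (H.flatMap (bd M)).toFinset fun z hz hz' => by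
      obtain ⟨e, he, hz⟩ := List.mem_flatMap.1 (List.mem_toFinset.1 hz)
      have k1 : (e, p e + 1) ∈ _ := mem_union_left (H.toFinset.image fun e => (e, q e + 1))
        (mem_union_right (U.image co) (mem_image_of_mem (fun e => (e, p e + 1))
          (List.mem_toFinset.2 he)))
      have k2 := mem_union_right (U.image co ∪ H.toFinset.image fun e => (e, p e + 1))
        (mem_image_of_mem (fun e => (e, q e + 1)) (List.mem_toFinset.2 he))
      exact ⟨_, _, by simp [h3], (h5 e he z hz).1 fun h => hz' (h ▸ k1),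
        (h5 e he z hz).2 fun h => hz' (h ▸ k2), .inl k1, .inl k2⟩
  rwa [union_eq_right.2] at h8
  intro z hz
  simp only [mem_union, mem_image, List.mem_toFinset, List.mem_flatMap, hU, mem_bd] at hz ⊢
  rcases hz with (⟨_, ⟨e, he, rfl | rfl⟩, rfl⟩ | ⟨e, he, rfl⟩) | ⟨e, he, rfl⟩
  · exact ⟨e, he, .inl rfl⟩
  · exact ⟨e, he, .inr (.inl rfl)⟩
  · exact ⟨e, he, .inr (.inr ⟨_, h1 e, rfl⟩)⟩
  · exact ⟨e, he, .inr (.inr ⟨_, h2 e, rfl⟩)⟩

def H2 (N r : ℕ) : List (C × C) :=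
  (List.range r ×ˢ List.range (N + 1)).map (fun x => ((2, x), (0, 0, 0))) ++
  (List.range r).flatMap (fun j => [((2, j, 0), (0, 1, 0)), ((2, j, N), (0, 1, 0))]) ++
  (List.range r ×ˢ List.range N).flatMap fun x =>
    [((3, x), (2, x)), ((3, x), (1, x.2, 0)), ((3, x), (2, x.1, x.2 + 1))]

def Hv (N r D : ℕ) : List (C × C) :=
  ((0, 1, 0), (0, 0, 0)) :: (List.range D).flatMap (fun t => [((0, t + 2, 0), (0, 0, 0)),
    ((0, t + 2, 0), (0, 1, 0))]) ++ (List.range N).map (fun i => ((1, i, 0), (0, 0, 0))) ++ H2 N r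

inductive Hp (N r D : ℕ) : C × C → Prop
  | b : Hp N r D ((0, 1, 0), (0, 0, 0))
  | b0 {t} : t < D → Hp N r D ((0, t + 2, 0), (0, 0, 0))
  | b1 {t} : t < D → Hp N r D ((0, t + 2, 0), (0, 1, 0))
  | x {i} : i < N → Hp N r D ((1, i, 0), (0, 0, 0))
  | a {j i} : j < r → i ≤ N → Hp N r D ((2, j, i), (0, 0, 0))
  | a0 {j} : j < r → Hp N r D ((2, j, 0), (0, 1, 0))
  | a1 {j} : j < r → Hp N r D ((2, j, N), (0, 1, 0))
  | w0 {j i} : j < r → i < N → Hp N r D ((3, j, i), (2, j, i))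
  | w1 {j i} : j < r → i < N → Hp N r D ((3, j, i), (1, i, 0))
  | w2 {j i} : j < r → i < N → Hp N r D ((3, j, i), (2, j, i + 1))

theorem mem_Hv {N r D e} : e ∈ Hv N r D ↔ Hp N r D e := by
  constructor
  · simp only [Hv, H2, List.mem_append, List.mem_cons, List.mem_flatMap, List.mem_map,
      List.mem_range, List.not_mem_nil, or_false, Prod.exists, List.mem_product]
    rintro (((rfl | ⟨t, h, rfl | rfl⟩) | ⟨i, h, rfl⟩) | (⟨j, i, h, rfl⟩ | ⟨j, h, rfl | rfl⟩) |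
      ⟨j, i, h, rfl | rfl | rfl⟩) <;> constructor <;> omega
  · rintro (_ | h | h | h | ⟨h, h'⟩ | h | h | ⟨h, h'⟩ | ⟨h, h'⟩ | ⟨h, h'⟩) <;>
      simp [Hv, H2, *] <;> first | omega | exact ⟨_, h, by simp⟩ | exact ⟨_, _, ⟨h, h'⟩, by simp⟩

def IsC (N r D : ℕ) (c : C) : Prop := c.1 = 0 ∧ c.2.1 < D + 2 ∧ c.2.2 = 0 ∨
  c.1 = 1 ∧ c.2.1 < N ∧ c.2.2 = 0 ∨ c.1 = 2 ∧ c.2.1 < r ∧ c.2.2 ≤ N ∨ c.1 = 3 ∧ c.2.1 < r ∧ c.2.2 < N

theorem isC_iff {N r D c} : IsC N r D c ↔ ∃ e ∈ Hv N r D, c = e.1 ∨ c = e.2 := by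
  simp only [mem_Hv]
  constructor
  · obtain ⟨a, j, i⟩ := c
    rintro (⟨rfl, h, rfl⟩ | ⟨rfl, h, rfl⟩ | ⟨rfl, h, h'⟩ | ⟨rfl, h, h'⟩)
    · rcases j with _ | _ | t
      · exact ⟨_, .b, .inr rfl⟩
      · exact ⟨_, .b, .inl rfl⟩
      · exact ⟨_, .b0 (by simpa using h), .inl rfl⟩
    · exact ⟨_, .x h, .inl rfl⟩
    · exact ⟨_, .a h h', .inl rfl⟩
    · exact ⟨_, .w0 h h', .inl rfl⟩
  · rintro ⟨e, h, rfl | rfl⟩ <;> cases h <;> simp [IsC] <;> omega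

theorem core {N r D : ℕ} (hN : 0 < N) {U : Finset C} (hU : ∀ c, c ∈ U ↔ IsC N r D c)
    {A : Set (Sym2 C)} (hA : ∀ e, Hp N r D e → s(e.1, e.2) ∈ A) (P : ℕ → Prop)
    (hP : ∀ i, P i → ∃ t < D, s((1, i, 0), (0, t + 2, 0)) ∈ A) {S : Finset ℕ} (h1 : S.card ≤ r)
    (h2 : ∀ i ∈ S, i < N) (h3 : ∀ i < N, P i ∨ i ∈ S ∨
      ∃ j < N, (P j ∨ j ∈ S) ∧ s((1, i, 0), (1, j, 0)) ∈ A) : HR U A := by
  classical
  obtain ⟨pos, h4, h5⟩ : ∃ pos : ℕ → ℕ, (∀ j, pos j < N) ∧ ∀ i ∈ S, ∃ j < r, pos j = i := by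
    refine ⟨fun j => S.toList.getD j 0, fun j => ?_, fun i hi => ?_⟩
    · dsimp only
      rcases lt_or_ge j S.toList.length with h | h
      · exact h2 _ (mem_toList.1 (List.getD_eq_getElem _ _ h ▸ List.getElem_mem h))
      · rwa [List.getD_eq_default _ _ h]
    · obtain ⟨j, k1, k2⟩ := List.getElem_of_mem (mem_toList.2 hi)
      exact ⟨j, by simp at k1; omega, (List.getD_eq_getElem _ _ k1).trans k2⟩
  let b : ℕ × ℕ → C := fun x => if x.2 = pos x.1 then (1, x.2, 0) else (2, x.1, x.2 + 1)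
  have v : ∀ j < r, ∀ i < N, s((2, j, i), b (j, i)) ∈
      A ∪ (fun x => s(((2, x) : C), b x)) '' ↑(range r ×ˢ range N) :=
    fun j hj i hi => .inr ⟨(j, i), by simp [hj, hi], rfl⟩
  have h6 := (HR.base (E := A ∪ (fun x => s(((2, x) : C), b x)) '' ↑(range r ×ˢ range N))
    (by simp) (.inl (hA _ .b))).zeros (fun c => if c.1 = 0 then 0 else if c.1 = 2 then
      (if c.2.2 ≤ pos c.2.1 then c.2.2 + 1 else N - c.2.2 + 1) else
        if P c.2.1 ∨ c.2.1 ∈ S then N + 2 else N + 3) {c ∈ U | c.1 ≠ 3} fun ⟨a, j, i⟩ hz hz' => by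
    simp only [mem_filter, hU, IsC] at hz ⊢
    obtain ⟨⟨rfl, h, rfl⟩ | ⟨rfl, h, rfl⟩ | ⟨rfl, h, h'⟩ | ⟨rfl, -⟩, hz⟩ := hz
    · obtain ⟨t, rfl⟩ : ∃ t, j = t + 2 := ⟨j - 2, by simp at hz'; omega⟩
      exact ⟨_, _, by simp, .inl (hA _ (.b0 (by omega))), .inl (hA _ (.b1 (by omega))), by simp⟩
    · by_cases k : P j ∨ j ∈ S
      · rcases id k with k1 | k1
        · obtain ⟨t, k2, k3⟩ := hP j k1
          exact ⟨_, _, by simp, .inl (hA _ (.x h)), .inl k3, by simp [k, k2]⟩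
        · obtain ⟨l, k2, rfl⟩ := h5 j k1
          refine ⟨_, (2, l, pos l), by simp, .inl (hA _ (.x h)), ?_, by simp [k, k2, h, h.le]⟩
          simpa [b, Sym2.eq_swap] using v l k2 _ h
      · obtain ⟨l, k1, k2, k3⟩ := ((h3 j h).resolve_left fun h => k (.inl h)).resolve_left
          fun h => k (.inr h)
        exact ⟨_, _, by simp, .inl (hA _ (.x h)), .inl k3, by simp [k, k1, k2]⟩
    · have := h4 j
      by_cases k : i = 0
      · exact ⟨_, (0, 1, 0), by simp, .inl (hA _ (.a h h')), .inl (k ▸ hA _ (.a0 h)), by simp⟩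
      by_cases k' : i = N
      · exact ⟨_, (0, 1, 0), by simp, .inl (hA _ (.a h h')), .inl (k' ▸ hA _ (.a1 h)), by simp⟩
      by_cases k1 : i ≤ pos j
      · obtain ⟨i, rfl⟩ := Nat.exists_eq_succ_of_ne_zero k
        refine ⟨_, (2, j, i), by simp, .inl (hA _ (.a h h')), ?_, by
          simp [h, k1, Nat.le_of_succ_le k1]; omega⟩
        simpa [b, Sym2.eq_swap, (Nat.lt_of_succ_le k1).ne] using v j h i h'
      · refine ⟨_, (2, j, i + 1), by simp, .inl (hA _ (.a h h')), ?_, by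
          simp [h, k1, show ¬ i + 1 ≤ pos j by omega]; omega⟩
        simpa [b, show i ≠ pos j by omega] using v j h i (by omega)
    · exact absurd rfl hz
  convert HR.ones (range r ×ˢ range N) (fun x => (3, x)) _ _
    (fun x => if x.2 = pos x.1 then (2, x.1, x.2 + 1) else (1, x.2, 0)) h6
    (fun _ _ _ _ h => congrArg Prod.snd h) fun ⟨j, i⟩ hx => ?_
  · ext ⟨a, j, i⟩
    simp [hU, IsC]
    omega
  · simp only [mem_product, mem_range] at hx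
    have k0 := hA _ (.w0 hx.1 hx.2)
    have k1 := hA _ (.w1 hx.1 hx.2)
    have k2 := hA _ (.w2 hx.1 hx.2)
    by_cases k : i = pos j
    · simp [b, hU, IsC, hx, hx.2.le, Nat.succ_le_of_lt hx.2, k0, k1, k2, eq_true k]
    · simp [b, hU, IsC, hx, hx.2.le, Nat.succ_le_of_lt hx.2, k0, k1, k2, k]

end Pool.Agent.H.MP_e057e5_lc
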