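import Pool.Agent.H.MP_e057e5_lc.B

set_option autoImplicit false

namespace Pool.Agent.H.MP_e057e5_lc

open Finset Pool.Agent.Lib.CX

def vs (N r D M : ℕ) : List V := (Hv N r D).flatMap (bd M)

def ed (N r D M : ℕ) (es : List (ℕ × ℕ)) : List (V × V) :=
  (Hv N r D).flatMap (fun e => bd M e ×ˢ bd M e) ++
  (List.range N ×ˢ List.range D).map (fun x => (co (1, x.1, 0), co (0, x.2 + 2, 0))) ++
  es.map fun e => (co (1, e.1, 0), co (1, e.2, 0))

def E0 (N r D M : ℕ) (es : List (ℕ × ℕ)) : Set (Sym2 V) :=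
  (SimpleGraph.fromRel fun u v => (u, v) ∈ ed N r D M es).edgeSet

abbrev pin (x : ℕ × ℕ) : Sym2 V := s(co (1, x.1, 0), co (0, x.2 + 2, 0))
abbrev hed (x : ℕ × ℕ) : Sym2 V := s(co (1, x.1, 0), co (1, x.2, 0))

theorem mem_E0 {N r D M es e} : e ∈ E0 N r D M es ↔ ¬ e.IsDiag ∧
    ((∃ x, Hp N r D x ∧ ∀ v ∈ e, v ∈ bd M x) ∨ (∃ i < N, ∃ t < D, e = pin (i, t)) ∨
      ∃ x ∈ es, e = hed x) := by
  induction e using Sym2.ind with | _ u v => ?_
  simp only [E0, ed, SimpleGraph.mem_edgeSet, SimpleGraph.fromRel_adj, List.mem_append,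
    List.mem_flatMap, List.mem_map, List.mem_product, mem_Hv, Sym2.mk_isDiag_iff, Sym2.mem_iff,
    forall_eq_or_imp, forall_eq, Sym2.eq_iff, Prod.mk.injEq (fst := co _)]
  refine and_congr_right fun _ => ⟨?_, ?_⟩
  · rintro (((⟨x, h⟩ | ⟨⟨i, t⟩, h, rfl, rfl⟩) | ⟨x, h, rfl, rfl⟩) |
      ((⟨x, h⟩ | ⟨⟨i, t⟩, h, rfl, rfl⟩) | ⟨x, h, rfl, rfl⟩))
    · exact .inl ⟨x, h⟩
    · simp at h
      exact .inr (.inl ⟨i, h.1, t, h.2, .inl ⟨rfl, rfl⟩⟩)
    · exact .inr (.inr ⟨x, h, .inl ⟨rfl, rfl⟩⟩)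
    · exact .inl ⟨x, h.1, h.2.symm⟩
    · simp at h
      exact .inr (.inl ⟨i, h.1, t, h.2, .inr ⟨rfl, rfl⟩⟩)
    · exact .inr (.inr ⟨x, h, .inr ⟨rfl, rfl⟩⟩)
  · rintro (⟨x, h⟩ | ⟨i, h, t, h', ⟨rfl, rfl⟩ | ⟨rfl, rfl⟩⟩ | ⟨x, h, ⟨rfl, rfl⟩ | ⟨rfl, rfl⟩⟩)
    · exact .inl (.inl (.inl ⟨x, h⟩))
    · exact .inl (.inl (.inr ⟨(i, t), by simp [h, h'], rfl, rfl⟩))
    · exact .inr (.inl (.inr ⟨(i, t), by simp [h, h'], rfl, rfl⟩))
    · exact .inl (.inr ⟨x, h, rfl, rfl⟩)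
    · exact .inr (.inr ⟨x, h, rfl, rfl⟩)

theorem rigV {N r D M : ℕ} {es : List (ℕ × ℕ)} (hN : 0 < N) {F : Finset (Sym2 V)}
    (hF : 2 * F.card + 2 ≤ M) {S : Finset ℕ} (h1 : S.card ≤ r) (h2 : ∀ i ∈ S, i < N)
    (h3 : ∀ i < N, (∃ t < D, pin (i, t) ∉ F) ∨ i ∈ S ∨ ∃ j < N, ((∃ t < D, pin (j, t) ∉ F) ∨ j ∈ S) ∧
      hed (i, j) ∈ E0 N r D M es \ F) : HR (vs N r D M).toFinset (E0 N r D M es \ F) := by
  refine gadget (U := ((Hv N r D).flatMap fun e => [e.1, e.2]).toFinset)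
    (fun e he => by cases mem_Hv.1 he <;> simp) (by simp [-Prod.exists]) hF
    (fun e he y hy z hz h h' => ⟨mem_E0.2 ⟨h, .inl ⟨e, mem_Hv.1 he, by simp [hy, hz]⟩⟩, h'⟩)
    (core hN (by simp [-Prod.exists, isC_iff]) (fun e he => .inl ⟨e, mem_Hv.2 he, rfl⟩)
      (fun i => i < N ∧ ∃ t < D, pin (i, t) ∉ F) (fun i ⟨k1, t, k2, k3⟩ => ⟨t, k2, .inr
        ⟨mem_E0.2 ⟨by simp, .inr (.inl ⟨i, k1, t, k2, rfl⟩)⟩, k3⟩⟩) h1 h2 fun i hi =>
      (h3 i hi).imp (fun h => ⟨hi, h⟩) (Or.imp_right fun ⟨j, k1, k2, k3⟩ =>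
        ⟨j, k1, k2.imp_left fun h => ⟨k1, h⟩, .inr k3⟩))

def cut (D : ℕ) (es : List (ℕ × ℕ)) (S : Finset ℕ) : Finset (Sym2 V) :=
  (S ×ˢ range D).image pin ∪ {e ∈ es.toFinset | e.1 ∈ S ∨ e.2 ∈ S}.image hed

theorem card_cut {D n : ℕ} {es : List (ℕ × ℕ)} (h1 : ∀ e ∈ es, e.1 < e.2 ∧ e.2 < n) (h2 : es.Nodup)
    (S : Finset ℕ) : (cut D es S).card + #{e ∈ es.toFinset | e.1 ∉ S ∧ e.2 ∉ S} =
      D * S.card + es.length := by
  have := card_filter_add_card_filter_not (s := es.toFinset) fun e => e.1 ∈ S ∨ e.2 ∈ S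
  rw [cut, card_union_of_disjoint (by
    simp only [disjoint_left, mem_image]
    rintro _ ⟨x, -, rfl⟩ ⟨y, -, h⟩
    simp at h), card_image_of_injective _
    (fun x y h => by simpa [Prod.ext_iff] using h), card_image_of_injOn fun x hx y hy h => by
      have := h1 x (by simp_all)
      have := h1 y (by simp_all)
      simp [Prod.ext_iff] at h ⊢
      omega, card_product, card_range, ← List.toFinset_card_of_nodup h2, ← this]
  simp only [not_or]
  ring

theorem sound {n c r D M : ℕ} {es : List (ℕ × ℕ)} (h1 : ∀ e ∈ es, e.1 < e.2 ∧ e.2 < n)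
    (h2 : es.Nodup) (hr : r = n + 1 - c - 1) (hD : D = es.length + (n + 1) * (n + 1) + 1)
    (hM : M = 2 * (D * (n + 1) + es.length) + 2) {F : Finset (Sym2 V)}
    (hF : F.card ≤ D * (n + 1 - c) + es.length - c * (c - 1) / 2)
    (h : ¬ HR (vs (n + 1) r D M).toFinset (E0 (n + 1) r D M es \ F)) :
    ∃ S : Finset ℕ, (∀ x ∈ S, x < n) ∧ (∀ x ∈ S, ∀ y ∈ S, x < y → (x, y) ∈ es) ∧ S.card = c := by
  classical
  have k0 : 2 * F.card + 2 ≤ M := by
    have := Nat.mul_le_mul_left D (Nat.sub_le (n + 1) c)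
    omega
  set S := {i ∈ range (n + 1) | ∀ t < D, pin (i, t) ∈ F} with hS
  have k1 : ∀ i < n + 1, (∃ t < D, pin (i, t) ∉ F) ∨ i ∈ S := fun i hi => by
    by_contra k
    simp [hS, hi] at k
    exact k.2.elim fun t ht => ht.2 (k.1 t ht.1)
  have k2 : ∀ i ∈ S, i < n + 1 := fun i hi => mem_range.1 (mem_filter.1 hi).1
  have k3 : r < S.card := not_le.1 fun k => h (rigV n.succ_pos k0 k k2 fun i hi =>
    (k1 i hi).imp_right .inl)
  have k4 : (S ×ˢ range D).image pin ⊆ F := image_subset_iff.2 fun x hx =>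
    (mem_filter.1 (mem_product.1 hx).1).2 _ (mem_range.1 (mem_product.1 hx).2)
  have k5 : S.card ≤ n + 1 - c := by
    have := card_le_card k4
    rw [card_image_of_injective _ (fun x y h => by simpa [Prod.ext_iff] using h), card_product,
      card_range] at this
    by_contra k
    have := Nat.mul_le_mul_right D (not_le.1 k)
    rw [Nat.succ_mul, mul_comm] at this
    omega
  have k6 : ∀ i ∈ S, ∀ j < n + 1, hed (i, j) ∉ E0 (n + 1) r D M es \ F := fun i hi j hj k =>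
    h (rigV (S := S.erase i) n.succ_pos k0 (by rw [card_erase_of_mem hi]; omega)
      (fun x hx => k2 x (mem_of_mem_erase hx)) fun l hl => (k1 l hl).imp_right fun k' =>
        (eq_or_ne l i).symm.imp (mem_erase.2 ⟨·, k'⟩) fun k7 : l = i => ⟨j, hj, (k1 j hj).imp_right fun k8 =>
          mem_erase.2 ⟨fun k9 => (mem_E0.1 k.1).1 (by simp [k9]), k8⟩, k7 ▸ k⟩)
  have k7 : cut D es S ⊆ F := union_subset k4 (image_subset_iff.2 fun x hx => by
    simp only [mem_filter, List.mem_toFinset] at hx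
    have l1 := h1 x hx.1
    have l2 : hed x ∈ E0 (n + 1) r D M es := mem_E0.2 ⟨by simp [l1.1.ne], .inr (.inr ⟨x, hx.1, rfl⟩)⟩
    by_contra l3
    rcases hx.2 with l4 | l4
    · exact k6 _ l4 x.2 (by omega) ⟨l2, l3⟩
    · exact k6 _ l4 x.1 (by omega) (by rw [hed, Sym2.eq_swap]; exact ⟨l2, l3⟩))
  have k8 := card_cut (D := D) h1 h2 S
  have k9 := card_le_card k7
  have l1 : (range (n + 1) \ S).card = c := by
    rw [card_sdiff_of_subset fun i hi => mem_range.2 (k2 i hi), card_range]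
    omega
  have l2 : {e ∈ es.toFinset | e.1 ∉ S ∧ e.2 ∉ S} =
      {x ∈ (range (n + 1) \ S) ×ˢ (range (n + 1) \ S) | x.1 < x.2} :=
    eq_of_subset_of_card_le (fun x hx => by
      simp only [mem_filter, List.mem_toFinset, mem_product, mem_sdiff, mem_range] at hx ⊢
      have := h1 x hx.1
      exact ⟨⟨⟨by omega, hx.2.1⟩, by omega, hx.2.2⟩, this.1⟩) (by
      rw [card_product_filter_lt, l1, Nat.choose_two_right]
      have l3 : c * (c - 1) ≤ (n + 1) * (n + 1) := Nat.mul_le_mul (by omega) (by omega)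
      have l4 : D * 1 ≤ D * (n + 1 - c) := Nat.mul_le_mul_left D (by omega)
      rw [show S.card = n + 1 - c by omega] at k8
      omega)
  have l3 : ∀ x ∈ range (n + 1) \ S, ∀ y ∈ range (n + 1) \ S, x < y → (x, y) ∈ es :=
    fun x hx y hy l => List.mem_toFinset.1 (mem_filter.1 (l2.ge (mem_filter.2
      ⟨mem_product.2 ⟨hx, hy⟩, l⟩))).1
  by_cases l4 : n ∈ range (n + 1) \ S
  · rw [eq_singleton_iff_unique_mem.2 ⟨l4, fun x hx => by_contra fun l5 => (h1 _ (l3 x hx n l4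
      (by have := mem_range.1 (mem_sdiff.1 hx).1; omega))).2.false⟩, card_singleton] at l1
    exact ⟨{0}, by simp; omega, by simp, l1⟩
  · exact ⟨_, fun x hx => lt_of_le_of_ne (Nat.le_of_lt_succ (mem_range.1 (mem_sdiff.1 hx).1))
      fun l => l4 (by rwa [l] at hx), l3, l1⟩

def mv (S : Finset ℕ) (c : C) : Prop := c.1 = 1 ∧ c.2.1 ∈ S ∨ 2 ≤ c.1

open scoped Classical in
theorem cover {N r D M : ℕ} {es : List (ℕ × ℕ)} (h1 : ∀ e ∈ es, e.1 < N ∧ e.2 < N) {S : Finset ℕ}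
    (h2 : ∀ i ∈ S, i < N) (h3 : S.card = r + 1) : ∃ (I : Finset (Option (C × C)))
      (Y : Option (C × C) → Finset V), (∀ e ∈ E0 N r D M es \ cut D es S, ∃ i ∈ I, ∀ v ∈ e, v ∈ Y i) ∧
        ∑ i ∈ I, (2 * (Y i).card - 3) + 4 ≤ 2 * (vs N r D M).toFinset.card := by
  have k0 : ∀ y, y ∈ (vs N r D M).toFinset ↔ ∃ e, Hp N r D e ∧ y ∈ bd M e := by
    simp [vs, mem_Hv, -Prod.exists]
  have k1 : ∀ c, IsC N r D c → co c ∈ (vs N r D M).toFinset := fun c hc => by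
    obtain ⟨e, k2, k3⟩ := isC_iff.1 hc
    exact (k0 _).2 ⟨e, mem_Hv.1 k2, mem_bd.2 (k3.imp (congrArg co) fun h => .inl (congrArg co h))⟩
  let I := {e ∈ (Hv N r D).toFinset | mv S e.1}
  refine ⟨insertNone I, fun i => i.elim {y ∈ (vs N r D M).toFinset | ¬ mv S y.1.1}
    fun e => (bd M e).toFinset, fun e ⟨k2, k3⟩ => ?_, ?_⟩
  · rcases (mem_E0.1 k2).2 with ⟨x, k4, k5⟩ | ⟨i, k4, t, k5, rfl⟩ | ⟨x, k4, rfl⟩
    · by_cases k6 : mv S x.1
      · exact ⟨some x, by simp [I, mem_Hv, k4, k6], by simpa using k5⟩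
      · refine ⟨none, by simp, fun v hv => mem_filter.2 ⟨(k0 _).2 ⟨x, k4, k5 v hv⟩, ?_⟩⟩
        rcases mem_bd.1 (k5 v hv) with rfl | rfl | ⟨t, -, rfl⟩
        · exact k6
        · cases k4 <;> simp [mv] at k6 ⊢
        · exact k6
    · have : i ∉ S := fun h => k3 (mem_union_left _ (mem_image_of_mem _ (by simp [h, k5])))
      exact ⟨none, by simp, by simp [-List.mem_toFinset, k1, IsC, mv, k4, k5, this]⟩
    · have : ¬ (x.1 ∈ S ∨ x.2 ∈ S) := fun h => k3 (mem_union_right _ (mem_image_of_mem _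
        (by simp [h, k4])))
      exact ⟨none, by simp, by simpa [-List.mem_toFinset, k1, IsC, mv, h1 x k4] using this⟩
  have k2 := card_filter_add_card_filter_not (s := (vs N r D M).toFinset) fun y => mv S y.1.1
  have k3 : 1 < #{y ∈ (vs N r D M).toFinset | ¬ mv S y.1.1} := one_lt_card.2
    ⟨co (0, 0, 0), by simp [-List.mem_toFinset, k1, IsC, mv], co (0, 1, 0),
      by simp [-List.mem_toFinset, k1, IsC, mv], by simp⟩
  have k4 : ∑ e ∈ I, (2 * (bd M e).toFinset.card - 3) ≤ I.card * (2 * M + 1) :=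
    sum_le_card_nsmul _ _ _ fun e _ => by
      have := (bd M e).toFinset_card_le
      simp only [bd, List.length_cons, List.length_map, List.length_range] at this ⊢
      omega
  have k5 : I.card ≤ S.card + (H2 N r).length := (card_le_card (t := S.image
    (fun i => ((1, i, 0), (0, 0, 0))) ∪ (H2 N r).toFinset) fun e he => by
      simp only [I, mem_filter, List.mem_toFinset, Hv, List.mem_append, List.mem_cons, mem_union,
        List.mem_flatMap, List.mem_map, List.not_mem_nil, or_false] at he ⊢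
      obtain ⟨((rfl | ⟨t, -, rfl | rfl⟩) | ⟨i, -, rfl⟩) | h, he⟩ := he
      all_goals first | exact .inr h | simp_all [mv]).trans ((card_union_le _ _).trans
        (add_le_add card_image_le (List.toFinset_card_le _)))
  have k6 : ((S.disjSum ((range r ×ˢ range (N + 1)).disjSum (range r ×ˢ range N))).disjSum
      (I ×ˢ range M)).card ≤ #{y ∈ (vs N r D M).toFinset | mv S y.1.1} :=
    card_le_card_of_injOn (Sum.elim (fun x => co (x.elim (fun i => (1, i, 0))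
      (Sum.elim (fun x => (2, x)) fun x => (3, x)))) fun x => (x.1, x.2 + 1)) (by
        rintro ((i | ⟨j, i⟩ | ⟨j, i⟩) | ⟨e, t⟩) h <;> simp only [mem_coe, inl_mem_disjSum,
          inr_mem_disjSum, mem_product, mem_range] at h
        · simp [-List.mem_toFinset, k1, IsC, mv, h, h2 i h]
        · simp [-List.mem_toFinset, k1, IsC, mv, h, Nat.le_of_lt_succ h.2]
        · simp [-List.mem_toFinset, k1, IsC, mv, h]
        · exact mem_filter.2 ⟨(k0 _).2 ⟨e, mem_Hv.1 (List.mem_toFinset.1 (mem_filter.1 h.1).1),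
            mem_bd.2 (.inr (.inr ⟨t, h.2, rfl⟩))⟩, (mem_filter.1 h.1).2⟩) (by
        rintro ((i | x | x) | x) - ((j | y | y) | y) - h <;> simp_all [Prod.ext_iff])
  have k7 : (H2 N r).length = r * (N + 1) + r * 2 + r * N * 3 := by
    simp [H2, List.length_flatMap, List.length_product, add_assoc]
  simp only [card_disjSum, card_product, card_range] at k6
  simp only [sum_insertNone, Option.elim]
  rw [mul_add, mul_left_comm] at k4
  rw [mul_add] at k6 k7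
  omega

end Pool.Agent.H.MP_e057e5_lc
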