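import Pool.Agent.H.MP_e057e5_lc.C

set_option autoImplicit false

namespace Pool.Agent.H.MP_e057e5_lc

open Finset Pool.Agent.Lib.CX

section
variable (N r D M : ℕ) (es : List (ℕ × ℕ))

abbrev gr : Gr := mkGr (vs N r D M) (ed N r D M es)

def φ (i : Fin (gr N r D M es).n) : V := (mkGrEquiv _ _ i).1

theorem φ_inj : Function.Injective (φ N r D M es) :=
  Subtype.val_injective.comp (mkGrEquiv _ _).injective

theorem φ_edge (e : Sym2 (Fin (gr N r D M es).n)) :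
    e ∈ (gr N r D M es).G.edgeSet ↔ e.map (φ N r D M es) ∈ E0 N r D M es := by
  induction e using Sym2.ind
  exact (mkGrIso _ _).map_rel_iff.symm

theorem gr_n : (gr N r D M es).n = (vs N r D M).toFinset.card := mkGr_n _ _

theorem two_le : 2 ≤ (gr N r D M es).n := gr_n N r D M es ▸ one_lt_card.2
  ⟨co (0, 1, 0), by simp [vs, Hv, bd], co (0, 0, 0), by simp [vs, Hv, bd], by simp⟩

theorem φ_HR (F : Finset (Sym2 (Fin (gr N r D M es).n))) (h : HR (vs N r D M).toFinset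
    (E0 N r D M es \ F.image (Sym2.map (φ N r D M es)))) :
    HR univ ((gr N r D M es).G.edgeSet \ F) := by
  have : Nonempty (Fin (gr N r D M es).n) := ⟨⟨0, Nat.lt_of_succ_lt (two_le ..)⟩⟩
  have h1 : ∀ v ∈ (vs N r D M).toFinset, φ N r D M es (Function.invFun (φ N r D M es) v) = v :=
    fun v hv => Function.invFun_eq ⟨(mkGrEquiv _ _).symm ⟨v, List.mem_toFinset.1 hv⟩, by simp [φ]⟩
  convert h.map (Function.invFun (φ N r D M es)) _ (fun x hx y hy h => by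
    rw [← h1 x hx, h, h1 y hy]) fun e he h2 => ?_
  · exact (eq_univ_of_forall fun i => mem_image.2 ⟨_, List.mem_toFinset.2 (mkGrEquiv _ _ i).2,
      Function.leftInverse_invFun (φ_inj ..) i⟩).symm
  · have h3 : (e.map (Function.invFun (φ N r D M es))).map (φ N r D M es) = e := by
      induction e using Sym2.ind
      simp [h1 _ (h2 _ (Sym2.mem_mk_left _ _)), h1 _ (h2 _ (Sym2.mem_mk_right _ _))]
    exact ⟨(φ_edge ..).2 (h3.symm ▸ he.1), fun h => he.2 (h3 ▸ mem_image_of_mem _ h)⟩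

end

def inst (a : List Unit × List (ℕ × ℕ) × ℕ) : Gr × ℕ :=
  (gr (a.1.length + 1) (a.1.length + 1 - a.2.2 - 1)
    (a.2.1.length + (a.1.length + 1) * (a.1.length + 1) + 1) (2 * ((a.2.1.length +
      (a.1.length + 1) * (a.1.length + 1) + 1) * (a.1.length + 1) + a.2.1.length) + 2) a.2.1,
    (a.2.1.length + (a.1.length + 1) * (a.1.length + 1) + 1) * (a.1.length + 1 - a.2.2) +
      a.2.1.length - a.2.2 * (a.2.2 - 1) / 2)

theorem inst_PT : PT inst := by unfold inst gr vs ed Hv H2 bd co; fun_prop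

variable (Rig : ∀ n, Set (Sym2 (Fin n)) → Prop) (I1 : ∀ n E, HR univ E → Rig n E)
  (I2 : ∀ n E (I : Finset (Option (C × C))) (Y : _ → Finset (Fin n)), (∀ e ∈ E, ¬ e.IsDiag ∧
    ∃ i ∈ I, ∀ v ∈ e, v ∈ Y i) → ∑ i ∈ I, (2 * (Y i).card - 3) + 4 ≤ 2 * n → ¬ Rig n E)
include I1 I2

theorem key {n c r D M : ℕ} {es : List (ℕ × ℕ)} (h1 : ∀ e ∈ es, e.1 < e.2 ∧ e.2 < n)
    (h2 : es.Nodup) (hr : r = n + 1 - c - 1) (hD : D = es.length + (n + 1) * (n + 1) + 1)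
    (hM : M = 2 * (D * (n + 1) + es.length) + 2) : (∃ S : Finset ℕ, (∀ x ∈ S, x < n) ∧
      (∀ x ∈ S, ∀ y ∈ S, x < y → (x, y) ∈ es) ∧ S.card = c) ↔
    ∃ F : Finset (Sym2 (Fin (gr (n + 1) r D M es).n)), ↑F ⊆ (gr (n + 1) r D M es).G.edgeSet ∧
      F.card ≤ D * (n + 1 - c) + es.length - c * (c - 1) / 2 ∧
        ¬ Rig _ ((gr (n + 1) r D M es).G.edgeSet \ F) := by
  classical
  refine ⟨?_, fun ⟨F, _, k1, k2⟩ => sound h1 h2 hr hD hM (card_image_le.trans k1)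
    fun h => k2 (I1 _ _ (φ_HR _ _ _ _ _ F h))⟩
  rintro ⟨S, k1, k2, rfl⟩
  have k3 : S ⊆ range n := fun x hx => mem_range.2 (k1 x hx)
  have k4 := (card_le_card k3).trans_eq (card_range _)
  have k5 : (range (n + 1) \ S).card = n + 1 - S.card := by
    rw [card_sdiff_of_subset (k3.trans (range_mono (Nat.le_succ _))), card_range]
  obtain ⟨I, Y, k6, k7⟩ := cover (D := D) (M := M) (r := r) (fun e he => by have := h1 e he; omega)
    (fun i hi => mem_range.1 (mem_sdiff.1 hi).1) (k5.trans (by omega))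
  have k8 := card_cut (D := D) h1 h2 (range (n + 1) \ S)
  have k9 : #{x ∈ S ×ˢ S | x.1 < x.2} ≤ #{e ∈ es.toFinset | e.1 ∉ range (n + 1) \ S ∧
      e.2 ∉ range (n + 1) \ S} := card_le_card fun x hx => by
    simp only [mem_filter, mem_product] at hx
    simp [hx, k2 _ hx.1.1 _ hx.1.2 hx.2]
  rw [card_product_filter_lt, Nat.choose_two_right] at k9
  refine ⟨{e ∈ (gr _ r D M es).G.edgeFinset | e.map (φ _ r D M es) ∈ cut D es (range (n + 1) \ S)},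
    fun e he => SimpleGraph.mem_edgeFinset.1 (mem_filter.1 he).1, (card_le_card_of_injOn _
      (fun e he => (mem_filter.1 he).2) (Sym2.map.injective (φ_inj ..)).injOn).trans
        (by rw [k5] at k8; omega), I2 _ _ I (fun i => {v | φ _ r D M es v ∈ Y i})
          (fun e he => ⟨SimpleGraph.not_isDiag_of_mem_edgeSet _ he.1, ?_⟩) ?_⟩
  · obtain ⟨i, l1, l2⟩ := k6 _ ⟨(φ_edge ..).1 he.1, fun h => he.2 (mem_filter.2
      ⟨SimpleGraph.mem_edgeFinset.2 he.1, h⟩)⟩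
    exact ⟨i, l1, fun v hv => mem_filter.2 ⟨mem_univ _, l2 _ (Sym2.mem_map.2 ⟨v, hv, rfl⟩)⟩⟩
  · refine le_trans (Nat.add_le_add_right (sum_le_sum fun i _ => Nat.sub_le_sub_right
      (Nat.mul_le_mul_left _ ?_) _) _) (k7.trans_eq (by rw [gr_n]))
    exact card_le_card_of_injOn _ (fun v hv => (mem_filter.1 hv).2) (φ_inj ..).injOn

theorem red : NPHard fun a : {a : Gr × ℕ // 2 ≤ a.1.n ∧ Rig _ a.1.G.edgeSet} =>
    ∃ F : Finset (Sym2 (Fin a.1.1.n)), ↑F ⊆ a.1.1.G.edgeSet ∧ F.card ≤ a.1.2 ∧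
      ¬ Rig _ (a.1.1.G.edgeSet \ F) :=
  NPHard.of_clique (fun a => ⟨inst a, two_le .., I1 _ _ ((φ_HR _ _ _ _ _ ∅
    (rigV (S := ∅) (Nat.succ_pos _) (by simp) (by simp) (by simp) fun _ _ =>
      .inl ⟨0, Nat.succ_pos _, by simp⟩)).mono Set.sdiff_subset)⟩) (inst_PT.subtype _)
    fun _ _ _ h1 h2 _ => key Rig I1 I2 h1 h2 rfl rfl rfl

theorem red' : NPHard fun a : {a : Gr × ℕ // 2 ≤ a.1.n ∧ Rig _ a.1.G.edgeSet} =>
    sInf {k | ∃ F : Finset (Sym2 (Fin a.1.1.n)), ↑F ⊆ a.1.1.G.edgeSet ∧ F.card = k ∧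
      ¬ Rig _ (a.1.1.G.edgeSet \ F)} ≤ a.1.2 := by
  classical
  refine (red Rig I1 I2).red ⟨_, PT.id, fun a => ⟨fun ⟨F, h1, h2, h3⟩ =>
    (Nat.sInf_le (by exact ⟨F, h1, rfl, h3⟩)).trans h2, fun h => ?_⟩⟩
  obtain ⟨F, h1, h2, h3⟩ := Nat.sInf_mem (s := {k | ∃ F : Finset (Sym2 (Fin a.1.1.n)),
    ↑F ⊆ a.1.1.G.edgeSet ∧ F.card = k ∧ ¬ Rig _ (a.1.1.G.edgeSet \ F)}) ⟨_, a.1.1.G.edgeFinset,
      by simp, rfl, I2 _ _ ∅ (fun _ => ∅) (by simp) (by have := a.2.1; simp; omega)⟩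
  exact ⟨F, h1, h2.trans_le h, h3⟩

end Pool.Agent.H.MP_e057e5_lc
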