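import Pool.Agent.H.MP_e057e5_lc.A
import Pool.Agent.Lib.helper21.Indep

set_option autoImplicit false

namespace Pool.Agent.H.MP_e057e5_lc

open Finset Module Submodule MvPolynomial

variable {W : Type} [DecidableEq W]

/-- The row of the edge `uv` in the rigidity matrix of the realization with coordinates `p`. -/
def row {R : Type} [CommRing R] (p : W × Fin 2 → R) : Sym2 W → W × Fin 2 → R :=
  Sym2.lift ⟨fun u v x => (if x.1 = u then p (u, x.2) - p (v, x.2) else 0) +
    (if x.1 = v then p (v, x.2) - p (u, x.2) else 0), fun _ _ => funext fun _ => add_comm _ _⟩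

theorem row_mk {R : Type} [CommRing R] (p : W × Fin 2 → R) (u v : W) (x : W × Fin 2) :
    row p s(u, v) x = (if x.1 = u then p (u, x.2) - p (v, x.2) else 0) +
      (if x.1 = v then p (v, x.2) - p (u, x.2) else 0) := rfl

theorem row_zero {p : W × Fin 2 → ℝ} {e : Sym2 W} {w : W} (h : w ∉ e) (i : Fin 2) :
    row p e (w, i) = 0 := by
  induction e using Sym2.ind
  simp at h
  simp [row_mk, h]

theorem gen_ne {σ : Type} {p : σ → ℝ} (hp : AlgebraicIndependent ℚ p) (P : MvPolynomial σ ℚ)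
    (q : σ → ℝ) (h : aeval q P ≠ 0) : aeval p P ≠ 0 := fun h' =>
  h (by rw [hp.eq_zero_of_aeval_eq_zero P h', map_zero])

theorem noncol {p : W × Fin 2 → ℝ} (hp : AlgebraicIndependent ℚ p) {u v w : W} (h1 : u ≠ v)
    (h2 : u ≠ w) (h3 : v ≠ w) : (p (u, 0) - p (v, 0)) * (p (u, 1) - p (w, 1)) -
      (p (u, 1) - p (v, 1)) * (p (u, 0) - p (w, 0)) ≠ 0 := by
  have := gen_ne hp ((X (u, 0) - X (v, 0)) * (X (u, 1) - X (w, 1)) -
    (X (u, 1) - X (v, 1)) * (X (u, 0) - X (w, 0)))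
    (fun x => if x = (v, 0) ∨ x = (w, 1) then 1 else 0) (by simp [h1, h2, h3, h3.symm])
  simpa only [map_sub, map_mul, aeval_X] using this

theorem transfer [Fintype W] {p : W × Fin 2 → ℝ} (hp : AlgebraicIndependent ℚ p)
    (q : W × Fin 2 → ℝ) {T : Finset (Sym2 W)} (h : LinearIndepOn ℝ (row q) T) :
    LinearIndepOn ℝ (row p) T := by
  have h1 : ∀ q : W × Fin 2 → ℝ, LinearIndepOn ℝ (row q) T ↔ aeval q (Matrix.det (Matrix.of
      fun i j : (T : Set (Sym2 W)) => ∑ x, row (R := MvPolynomial _ ℚ) X j.1 x * row X i.1 x)) ≠ 0 := by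
    intro q
    have h2 : ∀ e x, aeval q (row (R := MvPolynomial _ ℚ) X e x) = row q e x := fun e x => by
      induction e using Sym2.ind
      simp [row_mk, apply_ite (aeval q)]
    rw [LinearIndepOn, ← (WithLp.linearEquiv 2 ℝ (W × Fin 2 → ℝ)).symm.toLinearMap.linearIndependent_iff
      (LinearEquiv.ker _), ← Matrix.det_gram_ne_zero_iff_linearIndependent, AlgHom.map_det]
    congr! 2
    ext i j
    simp [h2, PiLp.inner_apply]
  exact (h1 p).2 (gen_ne hp _ q ((h1 q).1 h))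

theorem ins {ι M : Type} [AddCommGroup M] [Module ℝ M] {v : ι → M} {s : Set ι} {x : ι}
    (h : LinearIndepOn ℝ v s) (φ : M →ₗ[ℝ] ℝ) (h1 : ∀ i ∈ s, φ (v i) = 0) (h2 : φ (v x) ≠ 0) :
    LinearIndepOn ℝ v (insert x s) := h.insert fun h3 =>
  h2 ((span_le (p := LinearMap.ker φ)).2 (Set.forall_mem_image.2 h1) h3)

def cr (w : W) (s t : ℝ) : (W × Fin 2 → ℝ) →ₗ[ℝ] ℝ :=
  s • LinearMap.proj (w, 0) - t • LinearMap.proj (w, 1)

omit [DecidableEq W] in
theorem cr_apply (w : W) (s t : ℝ) (f : W × Fin 2 → ℝ) :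
    cr w s t f = s * f (w, 0) - t * f (w, 1) := rfl

theorem HR.geo [Fintype W] {p : W × Fin 2 → ℝ} (hp : AlgebraicIndependent ℚ p) {U : Finset W}
    {E : Set (Sym2 W)} (h : HR U E) : 2 * U.card - 3 ≤ finrank ℝ (span ℝ (row p '' E)) := by
  have n0 : ∀ {u v : W}, u ≠ v → p (u, 0) - p (v, 0) ≠ 0 := fun h =>
    sub_ne_zero.2 (hp.injective.ne (by simp [h]))
  obtain ⟨T, h1, -, h2, h3⟩ := h.ind (fun T => LinearIndepOn ℝ (row p) T)
    (fun u v h => by
      simpa using ins (linearIndepOn_empty ℝ (row p)) (cr u 1 0) (x := s(u, v)) (by simp)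
        (by simpa [cr_apply, row_mk, h] using n0 h))
    (fun T w a b k1 k2 k3 k4 k5 => by
      rw [coe_insert, coe_insert]
      refine ins (ins k1 (cr w 1 0) (fun e he => by simp [cr_apply, row_zero (k2 e he)])
        (by simpa [cr_apply, row_mk, k3] using n0 k3)) (cr w (p (w, 1) - p (a, 1))
          (p (w, 0) - p (a, 0))) (Set.forall_mem_insert.2 ⟨by simp [cr_apply, row_mk, k3, mul_comm],
            fun e he => by simp [cr_apply, row_zero (k2 e he)]⟩) fun h => noncol hp k3 k4 k5 ?_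
      simp [cr_apply, row_mk, k4] at h
      linarith)
    fun T w a b c k1 k2 k3 k4 k5 k6 k7 k8 k9 => by
      let q : W × Fin 2 → ℝ := fun x => if x.1 = w then (p (a, x.2) + p (b, x.2)) / 2 else p x
      have l1 : LinearIndepOn ℝ (row q) T := k1.congr fun e he => by
        have := k2 e he
        induction e using Sym2.ind
        simp [eq_comm (a := w)] at this
        ext x
        simp [row_mk, q, this]
      have l2 := ins l1 (cr w 1 0) (x := s(w, a)) (fun e he => by simp [cr_apply, row_zero (k2 e he)])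
        fun h => n0 k6 (by simp [cr_apply, row_mk, k3, q, k3.symm] at h; linarith)
      have l3 : s(a, b) ≠ s(w, a) := fun h => k2 _ k9 (h ▸ Sym2.mem_mk_left _ _)
      refine transfer hp q ?_
      rw [coe_insert, coe_insert, coe_insert, coe_erase]
      refine ins (LinearIndepOn.insert (l2.mono (Set.insert_subset_insert Set.diff_subset))
        fun h => l2.notMem_span (i := s(a, b)) (Or.inr k9) ?_) (cr w (p (a, 1) - p (b, 1))
          (p (a, 0) - p (b, 0))) (Set.forall_mem_insert.2 ⟨?_, Set.forall_mem_insert.2 ⟨?_,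
            fun e he => by simp [cr_apply, row_zero (k2 e he.1)]⟩⟩) fun h => noncol hp k6 k7 k8 ?_
      · rw [Set.insert_diff_of_notMem _ (by simpa using l3.symm),
          show row q s(a, b) = (2 : ℝ) • (row q s(w, a) + row q s(w, b)) from funext fun x => by
            simp only [row_mk, q, k3.symm, k4.symm, Pi.smul_apply, Pi.add_apply, if_true, if_false,
              smul_eq_mul]
            split_ifs <;> first | ring | simp_all]
        exact smul_mem _ _ (add_mem (subset_span ⟨_, Or.inl rfl, rfl⟩) h)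
      · simp [cr_apply, row_mk, k4, q, k4.symm]; ring
      · simp [cr_apply, row_mk, k3, q, k3.symm]; ring
      · simp [cr_apply, row_mk, k5, q, k5.symm] at h
        linarith
  have := finrank_span_eq_card h3
  rw [← Set.image_eq_range] at this
  simp only [coe_sort_coe, Fintype.card_coe] at this
  exact le_trans (by omega) (finrank_mono (span_mono (Set.image_mono h1)))

theorem body [Fintype W] {p : W × Fin 2 → ℝ} (hp : Function.Injective p) (Y : Finset W) :
    finrank ℝ (span ℝ (row p '' {e | ¬ e.IsDiag ∧ ∀ v ∈ e, v ∈ Y})) ≤ 2 * Y.card - 3 := by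
  rcases Set.eq_empty_or_nonempty {e : Sym2 W | ¬ e.IsDiag ∧ ∀ v ∈ e, v ∈ Y} with h | ⟨e, h1, h2⟩
  · rw [h, Set.image_empty, span_empty, finrank_bot]
    exact Nat.zero_le _
  induction e using Sym2.ind with | _ a b => ?_
  simp at h1 h2
  let L : (Y × Fin 2 → ℝ) →ₗ[ℝ] (W × Fin 2 → ℝ) := LinearMap.pi fun x =>
    if h : x.1 ∈ Y then LinearMap.proj (⟨x.1, h⟩, x.2) else 0
  have k0 : ∀ f : W × Fin 2 → ℝ, (∀ x, x.1 ∉ Y → f x = 0) → f ∈ LinearMap.range L := fun f h =>
    ⟨fun y => f (y.1, y.2), funext fun x => by by_cases h' : x.1 ∈ Y <;> simp [L, h', h]⟩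
  have k1 := L.finrank_range_le
  let φ : (W → ℝ) → (W → ℝ) → (W × Fin 2 → ℝ) →ₗ[ℝ] ℝ := fun s t => ∑ w, cr w (s w) (t w)
  have k2 : ∀ s t w i, φ s t (Pi.single (w, i) 1) = ![s w, - t w] i := fun s t w i => by
    fin_cases i <;> simp [φ, cr_apply, Pi.single_apply]
  have k3 : ∀ (A : Submodule ℝ (W × Fin 2 → ℝ)) s t, (∃ f ∈ A, φ s t f ≠ 0) →
      finrank ℝ ↥(A ⊓ LinearMap.ker (φ s t)) < finrank ℝ A := fun A s t ⟨f, h, h'⟩ =>
    finrank_lt_finrank_of_lt (inf_lt_left.2 fun h3 => h' (h3 h))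
  have k4 : ∀ v ∈ Y, ∀ i, Pi.single (v, i) (1 : ℝ) ∈ LinearMap.range L := fun v hv i =>
    k0 _ fun x hx => Pi.single_eq_of_ne (by rintro rfl; exact hx hv) _
  have l1 := k3 _ 1 0 ⟨_, k4 a h2.1 0, by simp [k2]⟩
  have l2 := k3 (_ ⊓ LinearMap.ker (φ 1 0)) 0 1 ⟨_, ⟨k4 a h2.1 1, by simp [k2]⟩, by simp [k2]⟩
  have l3 := k3 ((_ ⊓ LinearMap.ker (φ 1 0)) ⊓ LinearMap.ker (φ 0 1)) (fun w => p (w, 1))
    (fun w => p (w, 0)) ⟨_, ⟨⟨sub_mem (k4 a h2.1 0) (k4 b h2.2 0), by simp [k2]⟩, by simp [k2]⟩,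
      by simpa [k2, sub_eq_zero] using hp.ne (by simp [h1])⟩
  refine le_trans (finrank_mono (span_le.2 ?_)) (?_ : finrank ℝ ↥(((LinearMap.range L ⊓
    LinearMap.ker (φ 1 0)) ⊓ LinearMap.ker (φ 0 1)) ⊓ LinearMap.ker (φ (fun w => p (w, 1))
      fun w => p (w, 0))) ≤ _)
  · rintro _ ⟨e, ⟨h3, h4⟩, rfl⟩
    refine ⟨⟨⟨k0 _ fun x hx => row_zero (fun h => hx (h4 _ h)) _, ?_⟩, ?_⟩, ?_⟩
    all_goals
      induction e using Sym2.ind
      simp [φ, cr_apply, row_mk, mul_add, sum_add_distrib]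
    ring
  · simp at k1
    omega

theorem cover_geo [Fintype W] {p : W × Fin 2 → ℝ} (hp : Function.Injective p) {ι : Type}
    (I : Finset ι) (Y : ι → Finset W) : ∀ E : Set (Sym2 W), (∀ e ∈ E, ¬ e.IsDiag ∧
      ∃ i ∈ I, ∀ v ∈ e, v ∈ Y i) →
      finrank ℝ (span ℝ (row p '' E)) ≤ ∑ i ∈ I, (2 * (Y i).card - 3) := by
  classical
  induction I using Finset.induction_on with
  | empty => exact fun E h => by simp [Set.eq_empty_of_forall_notMem fun e he => by simpa using h e he]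
  | insert i I hi ih =>
    intro E h
    rw [sum_insert hi]
    refine (finrank_mono ?_).trans ((finrank_add_le_finrank_add_finrank _ _).trans (add_le_add
      (body hp (Y i)) (ih {e | ¬ e.IsDiag ∧ ∃ i ∈ I, ∀ v ∈ e, v ∈ Y i} fun _ h => h)))
    rw [← span_union, ← Set.image_union]
    refine span_mono (Set.image_mono fun e he => ?_)
    obtain ⟨h1, j, h2, h3⟩ := h e he
    rcases mem_insert.1 h2 with rfl | h2
    · exact Or.inl ⟨h1, h3⟩
    · exact Or.inr ⟨h1, j, h2, h3⟩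

theorem exists_gen (σ : Type) [Finite σ] : ∃ p : σ → ℝ, AlgebraicIndependent ℚ p := by
  obtain ⟨p, -, h1, h2⟩ := Lib.helper21.Indep.exists_indep ℝ σ (fun _ => Set.univ) Cardinal.continuum
    Cardinal.aleph0_lt_continuum ((Cardinal.lt_aleph0_of_finite _).le.trans
      Cardinal.aleph0_le_continuum) fun _ => by simp [Cardinal.mk_real]
  exact ⟨p, (algebraicIndependent_subtype_range h1).1
    (AlgebraicIndependent.matroid_indep_iff.1 h2)⟩

end Pool.Agent.H.MP_e057e5_lc
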